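import Pool.Agent.helper91.MM.SpecB
import Pool.Agent.helper74.SchRec

set_option autoImplicit false

/-!
# MP_bfc607_gt, row REZ: the recursion under CH
-/

namespace Pool.Agent.MM

open Pool.Agent.Scheepers Filter Topology Cardinal

/-- Lower bounds of countable chains. -/
theorem REZ_chain {S : Sys} (h1 : ORD_stmt) (h3 : LWR_stmt) {J : Type} [Countable J] [Nonempty J]
    (p : J → Cnd S) (hp : ∀ i j, (p i).le (p j) ∨ (p j).le (p i)) :
    ∃ q : Cnd S, ∀ i, q.le (p i) := by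
  classical
  obtain ⟨le_refl, le_trans, -⟩ := h1 S
  obtain ⟨g, hg⟩ := exists_surjective_nat J
  let m : ℕ → J := fun n => Nat.rec (g 0)
    (fun n i => if (p i).le (p (g (n + 1))) then i else g (n + 1)) n
  have hm : ∀ n, m (n + 1) = if (p (m n)).le (p (g (n + 1))) then m n else g (n + 1) := fun n => rfl
  have h1 : ∀ n, (p (m (n + 1))).le (p (m n)) ∧ (p (m (n + 1))).le (p (g (n + 1))) := by
    intro n
    rw [hm]
    split_ifs with h
    · exact ⟨le_refl _, h⟩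
    · exact ⟨(hp (m n) (g (n + 1))).resolve_left h, le_refl _⟩
  obtain ⟨q, hq⟩ := h3 S (fun n => p (m n)) (fun n => (h1 n).1)
  refine ⟨q, fun i => ?_⟩
  obtain ⟨n, rfl⟩ := hg i
  cases n with
  | zero => exact hq 0
  | succ n => exact le_trans _ _ _ (hq (n + 1)) (h1 n).2

/-- Exclusion of countably many points. -/
theorem REZ_exc {S : Sys} (h1 : ORD_stmt) (h3 : LWR_stmt) (h5 : EXC_stmt) (p : Cnd S)
    (c : ℕ → (ℕ → Bool)) : ∃ q : Cnd S, q.le p ∧ ∀ n, c n ∉ q.star := by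
  classical
  obtain ⟨le_refl, le_trans, star_sub⟩ := h1 S
  choose e he1 he2 using h5 S
  let u : ℕ → Cnd S := fun n => Nat.rec p (fun n r => e r (c n)) n
  have hu : ∀ n, u (n + 1) = e (u n) (c n) := fun n => rfl
  obtain ⟨q, hq⟩ := h3 S u (fun n => by rw [hu]; exact he1 _ _)
  refine ⟨q, hq 0, fun n hn => ?_⟩
  have h6 := star_sub _ _ (hq (n + 1)) hn
  rw [hu] at h6
  exact he2 _ _ h6

/-- The fusion with countably many side points. -/
theorem REZ_fus {S : Sys} (h2 : FUZ_stmt) {J : Type} [Countable J] [Nonempty J] (p : Cnd S)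
    (V : ℕ → ℕ → Set (ℕ → Bool)) (b : ℕ → ℕ → ℕ) (hV : ∀ n k, Supp (b n k) (V n k))
    (hconv : ∀ n, ∀ z ∈ p.star, z ∈ S.P → ∃ k0, ∀ k, k0 ≤ k → z ∉ V n k)
    (c : J → (ℕ → Bool)) (hc : ∀ i n, ∃ k0, ∀ k, k0 ≤ k → c i ∉ V n k) :
    ∃ q : Cnd S, q.le p ∧ ∃ s : ℕ → ℕ, (∀ z ∈ q.star, Ev V s z) ∧ ∀ i, Ev V s (c i) := by
  obtain ⟨g, hg⟩ := exists_surjective_nat J
  obtain ⟨q, hq, s, hs1, hs2⟩ := h2 S p V b hV hconv (fun i => c (g i)) (fun i n => hc (g i) n)
  refine ⟨q, hq, s, hs1, fun i => ?_⟩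
  obtain ⟨m, rfl⟩ := hg i
  exact hs2 m

/-- Tasks. -/
abbrev REZ_Task (ι : Type) := (ℕ → ℕ → Code) × ι × (ℕ → (ℕ → Bool))

theorem REZ_mk_task (ι : Type) (hι : #ι ≤ Cardinal.continuum.{0}) :
    #(REZ_Task ι) ≤ Cardinal.continuum.{0} := by
  have h1 : #Code ≤ ℵ₀ := Cardinal.mk_le_aleph0
  have h2 : #(ℕ → ℕ → Code) ≤ 𝔠 := by
    have h3 : #(ℕ → Code) ≤ 𝔠 := by
      rw [← Cardinal.power_def, Cardinal.mk_nat]
      calc #Code ^ ℵ₀ ≤ ℵ₀ ^ ℵ₀ := Cardinal.power_le_power_right h1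
        _ = 𝔠 := Cardinal.aleph0_power_aleph0
    rw [← Cardinal.power_def, Cardinal.mk_nat]
    calc #(ℕ → Code) ^ ℵ₀ ≤ 𝔠 ^ ℵ₀ := Cardinal.power_le_power_right h3
      _ = 𝔠 := Cardinal.continuum_power_aleph0
  have h4 : #(ℕ → (ℕ → Bool)) ≤ 𝔠 := by
    have h5 : #(ℕ → Bool) ≤ 𝔠 := by
      rw [← Cardinal.power_def, Cardinal.mk_nat, Cardinal.mk_bool]
      exact le_of_eq Cardinal.two_power_aleph0
    rw [← Cardinal.power_def, Cardinal.mk_nat]
    calc #(ℕ → Bool) ^ ℵ₀ ≤ 𝔠 ^ ℵ₀ := Cardinal.power_le_power_right h5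
      _ = 𝔠 := Cardinal.continuum_power_aleph0
  have h5 : #(ι × (ℕ → (ℕ → Bool))) ≤ 𝔠 := by
    rw [Cardinal.mk_prod, Cardinal.lift_id, Cardinal.lift_id]
    calc #ι * #(ℕ → (ℕ → Bool)) ≤ 𝔠 * 𝔠 := mul_le_mul' hι h4
      _ = 𝔠 := Cardinal.continuum_mul_self
  rw [Cardinal.mk_prod, Cardinal.lift_id, Cardinal.lift_id]
  calc #(ℕ → ℕ → Code) * #(ι × (ℕ → (ℕ → Bool))) ≤ 𝔠 * 𝔠 := mul_le_mul' h2 h5
    _ = 𝔠 := Cardinal.continuum_mul_self

section

variable {S : Sys} {T : Type} (r : T → T → Prop) (W : T → ℕ → ℕ → Set (ℕ → Bool))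
  (Q : T → Set (ℕ → Bool)) (E : T → ℕ → (ℕ → Bool))

/-- states of the recursion -/
abbrev REZ_St (S : Sys) := (ℕ → Bool) × (ℕ → Bool) × Cnd S

/-- the points known at a stage -/
def REZ_Pt (i : T) (f : (j : T) → r j i → REZ_St S) (s : REZ_St S) (z : ℕ → Bool) : Prop :=
  z = s.1 ∨ z = s.2.1 ∨ ∃ j hj, z = (f j hj).1 ∨ z = (f j hj).2.1

/-- validity of a history -/
def REZ_Hist (i : T) (f : (j : T) → r j i → REZ_St S) : Prop :=
  ∀ j hj j' hj', r j j' → (f j' hj').2.2.le (f j hj).2.2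

/-- requirement of a step -/
def REZ_Step (i : T) (f : (j : T) → r j i → REZ_St S) (s : REZ_St S) : Prop :=
  (∀ j hj, s.2.2.le (f j hj).2.2) ∧
  (∀ j hj, s.1 ∈ (f j hj).2.2.star ∧ s.2.1 ∈ (f j hj).2.2.star) ∧
  s.1 ∈ S.P ∧ s.2.1 ∈ S.P ∧ s.1 ∈ Q i ∧ (∀ n, E i n ∉ s.2.2.star) ∧
  ((∃ z, REZ_Pt r i f s z ∧ Kills (W i) z) ∨
    ∃ κ, (∀ z ∈ s.2.2.star, Ev (W i) κ z) ∧ ∀ z, REZ_Pt r i f s z → Ev (W i) κ z)

theorem REZ_step_exists [IsWellOrder T r] (h1 : ORD_stmt) (h2 : FUZ_stmt) (h3 : LWR_stmt)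
    (h4 : NEM_stmt) (h5 : EXC_stmt)
    (hQ : ∀ (p : Cnd S) (i : T), ∃ z ∈ p.star, z ∈ S.P ∧ z ∈ Q i)
    (b : T → ℕ → ℕ → ℕ) (hW : ∀ i n k, Supp (b i n k) (W i n k))
    (i : T) [hi : Countable {j // r j i}] (f : (j : T) → r j i → REZ_St S)
    (hf : REZ_Hist r i f) : ∃ s, REZ_Step r W Q E i f s := by
  classical
  obtain ⟨le_refl, le_trans, star_sub⟩ := h1 S
  obtain ⟨q00, hq00⟩ : ∃ q0 : Cnd S, ∀ j hj, q0.le (f j hj).2.2 := by
    rcases isEmpty_or_nonempty {j // r j i} with he | he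
    · obtain ⟨q⟩ := h4 S
      exact ⟨q, fun j hj => (he.false ⟨j, hj⟩).elim⟩
    · obtain ⟨q, hq⟩ := REZ_chain h1 h3 (J := {j // r j i}) (fun j => (f j.1 j.2).2.2) (by
        intro j j'
        rcases trichotomous_of r j.1 j'.1 with h1 | h1 | h1
        · exact Or.inr (hf _ _ _ _ h1)
        · have : j = j' := Subtype.ext h1
          subst this
          exact Or.inl (le_refl _)
        · exact Or.inl (hf _ _ _ _ h1))
      exact ⟨q, fun j hj => hq ⟨j, hj⟩⟩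
  obtain ⟨q0, hq01, hexc⟩ := REZ_exc h1 h3 h5 q00 (E i)
  have hq0 : ∀ j hj, q0.le (f j hj).2.2 := fun j hj => le_trans _ _ _ hq01 (hq00 j hj)
  obtain ⟨x, hx1, hx2, hx3⟩ := hQ q0 i
  by_cases hk : ∃ y ∈ q0.star, y ∈ S.P ∧ Kills (W i) y
  · obtain ⟨y, hy1, hy2, hy3⟩ := hk
    refine ⟨(x, y, q0), hq0, fun j hj => ⟨star_sub _ _ (hq0 j hj) hx1,
      star_sub _ _ (hq0 j hj) hy1⟩, hx2, hy2, hx3, hexc, Or.inl ⟨y, Or.inr (Or.inl rfl), hy3⟩⟩
  · by_cases hk2 : ∃ z, REZ_Pt r i f (x, x, q0) z ∧ Kills (W i) z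
    · exact ⟨(x, x, q0), hq0, fun j hj => ⟨star_sub _ _ (hq0 j hj) hx1,
        star_sub _ _ (hq0 j hj) hx1⟩, hx2, hx2, hx3, hexc, Or.inl hk2⟩
    · have hnk : ∀ z, ¬ Kills (W i) z → ∀ n, ∃ k0, ∀ k, k0 ≤ k → z ∉ W i n k := by
        intro z hz n
        by_contra hcon
        push Not at hcon
        exact hz ⟨n, fun k0 => hcon k0⟩
      let c : Option ({j // r j i} × Bool) → (ℕ → Bool) := fun o => match o with
        | none => x
        | some (j, true) => (f j.1 j.2).1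
        | some (j, false) => (f j.1 j.2).2.1
      have hc : ∀ o, REZ_Pt r i f (x, x, q0) (c o) := by
        intro o
        rcases o with _ | ⟨j, _ | _⟩
        · exact Or.inl rfl
        · exact Or.inr (Or.inr ⟨j.1, j.2, Or.inr rfl⟩)
        · exact Or.inr (Or.inr ⟨j.1, j.2, Or.inl rfl⟩)
      obtain ⟨q, hq, κ, hκ1, hκ2⟩ := REZ_fus h2 q0 (W i) (b i) (hW i)
        (fun n z hz hz2 => hnk z (fun hzk => hk ⟨z, hz, hz2, hzk⟩) n) c
        (fun o n => hnk (c o) (fun hzk => hk2 ⟨_, hc o, hzk⟩) n)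
      refine ⟨(x, x, q), fun j hj => le_trans _ _ _ hq (hq0 j hj),
        fun j hj => ⟨star_sub _ _ (hq0 j hj) hx1, star_sub _ _ (hq0 j hj) hx1⟩, hx2, hx2, hx3,
        fun n hn => hexc n (star_sub _ _ hq hn), Or.inr ⟨κ, hκ1, ?_⟩⟩
      rintro z (hz | hz | ⟨j, hj, hz | hz⟩)
      · rw [hz]; exact hκ2 none
      · rw [hz]; exact hκ2 none
      · rw [hz]; exact hκ2 (some (⟨j, hj⟩, true))
      · rw [hz]; exact hκ2 (some (⟨j, hj⟩, false))

/-- Transfinite recursion. -/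
theorem REZ_rec_exists [IsWellOrder T r] (h4 : NEM_stmt)
    (hstep : ∀ i (f : (j : T) → r j i → REZ_St S), REZ_Hist r i f → ∃ s, REZ_Step r W Q E i f s) :
    ∃ G : T → REZ_St S, ∀ i, REZ_Step r W Q E i (fun j _ => G j) (G i) := by
  classical
  have wf : WellFounded r := IsWellFounded.wf
  obtain ⟨q⟩ := h4 S
  let body : (i : T) → ((j : T) → r j i → REZ_St S) → REZ_St S := fun i f =>
    if hf : REZ_Hist r i f then Classical.choose (hstep i f hf)
    else (fun _ => false, fun _ => false, q)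
  let G : T → REZ_St S := wf.fix body
  have hG : ∀ i, G i = body i (fun j _ => G j) := fun i => wf.fix_eq body i
  refine ⟨G, fun i => ?_⟩
  induction i using wf.induction with
  | _ i ih =>
    have hh : REZ_Hist r i (fun j _ => G j) := by
      intro j hj j' hj' hjj'
      exact (ih j' hj').1 j hjj'
    rw [hG i]
    simp only [body, hh, dif_pos]
    exact Classical.choose_spec (hstep i _ hh)

end

theorem REZ_closed {S : Sys} (p : Cnd S) (J : ℕ) :
    IsClosed {z : ℕ → Bool | ∀ j, J ≤ j → z ∈ p.A j} := by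
  have h : {z : ℕ → Bool | ∀ j, J ≤ j → z ∈ p.A j} = ⋂ j, ⋂ (_ : J ≤ j), p.A j := by
    ext z
    simp
  rw [h]
  refine isClosed_iInter fun j => isClosed_iInter fun _ => ?_
  have hs : Supp (p.a (j + 1)) (p.A j) := by
    intro u v huv hu
    exact p.loc j u v (fun e _ he => huv e he) hu
  exact hs.isClosed

theorem REZ (h1 : ORD_stmt) (h2 : FUZ_stmt) (h3 : LWR_stmt) (h4 : NEM_stmt) (h5 : EXC_stmt)
    (h6 : COC_stmt) : REZ_stmt := by
  classical
  intro S ι _ Q hι hCH hQ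
  obtain ⟨le_refl, le_trans, star_sub⟩ := h1 S
  obtain ⟨r, wo, hr⟩ := Cardinal.exists_ord_eq (REZ_Task ι)
  have hsmall : ∀ i : REZ_Task ι, Countable {j // r j i} := by
    intro i
    have h1 := Cardinal.card_typein_lt i hr
    rw [Ordinal.card_typein] at h1
    have h2 : #{j // r j i} < Cardinal.continuum.{0} := lt_of_lt_of_le h1 (REZ_mk_task ι hι)
    rw [hCH] at h2
    exact Cardinal.mk_le_aleph0_iff.1 (Cardinal.lt_aleph_one_iff.1 h2)
  let W : REZ_Task ι → ℕ → ℕ → Set (ℕ → Bool) := fun i n k => dec (i.1 n k)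
  obtain ⟨G, hG⟩ := REZ_rec_exists (S := S) r W (fun i => Q i.2.1) (fun i => i.2.2) h4
    (fun i f hf => by
      have := hsmall i
      exact REZ_step_exists r W (fun i => Q i.2.1) (fun i => i.2.2) h1 h2 h3 h4 h5
        (fun p i => hQ p i.2.1) (fun i n k => (i.1 n k).1) (fun i n k => supp_dec _) i f hf)
  let X : Set (ℕ → Bool) := {z | ∃ i, z = (G i).1 ∨ z = (G i).2.1}
  have hsel : SelSet X := by
    intro V b hV hconv
    choose c hc using fun n k => exists_code (hV n k)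
    let i : REZ_Task ι := (c, Classical.arbitrary ι, fun _ _ => false)
    have hWi : W i = V := by
      funext n k
      exact hc n k
    have hnk : ∀ z ∈ X, ¬ Kills V z := by
      rintro z hz ⟨n, hn⟩
      obtain ⟨k0, hk0⟩ := hconv n z hz
      obtain ⟨k, hk1, hk2⟩ := hn k0
      exact hk0 k hk1 hk2
    obtain ⟨h1, h2, h3, h4, h5, h7, h6⟩ := hG i
    rw [hWi] at h6
    rcases h6 with ⟨z, hz, hzk⟩ | ⟨κ, hκ1, hκ2⟩
    · exfalso
      refine hnk z ?_ hzk
      rcases hz with hz | hz | ⟨j, _, hz⟩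
      · exact ⟨i, Or.inl hz⟩
      · exact ⟨i, Or.inr hz⟩
      · exact ⟨j, hz⟩
    · refine ⟨κ, ?_⟩
      rintro z ⟨j, hz⟩
      rcases trichotomous_of r j i with hji | hji | hji
      · exact hκ2 z (Or.inr (Or.inr ⟨j, hji, hz⟩))
      · subst hji
        rcases hz with hz | hz
        · exact hκ2 z (Or.inl hz)
        · exact hκ2 z (Or.inr (Or.inl hz))
      · have := (hG j).2.1 i hji
        rcases hz with hz | hz
        · rw [hz]; exact hκ1 _ this.1
        · rw [hz]; exact hκ1 _ this.2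
  refine ⟨X, ?_, ?_, ?_⟩
  · rintro z ⟨i, hz | hz⟩
    · rw [hz]; exact (hG i).2.2.1
    · rw [hz]; exact (hG i).2.2.2.1
  · intro g
    let i : REZ_Task ι := (fun _ _ => ⟨0, ∅⟩, g, fun _ _ => false)
    exact ⟨(G i).1, ⟨i, Or.inl rfl⟩, (hG i).2.2.2.2.1⟩
  · intro C hC
    obtain ⟨e, he⟩ : ∃ e : ℕ → (ℕ → Bool), C ⊆ Set.range e := by
      rcases C.eq_empty_or_nonempty with h | h
      · exact ⟨fun _ _ => false, by rw [h]; exact Set.empty_subset _⟩
      · obtain ⟨e, he⟩ := hC.exists_eq_range h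
        exact ⟨e, he.le⟩
    let i : REZ_Task ι := (fun _ _ => ⟨0, ∅⟩, Classical.arbitrary ι, e)
    let p : Cnd S := (G i).2.2
    have hexc : ∀ n, e n ∉ p.star := (hG i).2.2.2.2.2.1
    refine h6 X C hC hsel (fun J => {z | ∀ j, J ≤ j → z ∈ p.A j}) (fun J => REZ_closed p J) ?_ ?_ ?_
    · intro J J' hJ z hz j hj
      exact hz j (hJ.trans hj)
    · intro J
      rw [Set.disjoint_left]
      intro z hz hz2
      obtain ⟨n, rfl⟩ := he hz
      exact hexc n ⟨J, hz2⟩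
    · -- the points outside the star of `p` come from earlier tasks
      have := hsmall i
      have hcount : (⋃ j : {j // r j i}, ({(G j.1).1, (G j.1).2.1} : Set (ℕ → Bool))).Countable :=
        Set.countable_iUnion fun j => Set.Countable.insert _ (Set.countable_singleton _)
      refine (hcount.union (Set.Countable.insert (G i).1
        (Set.countable_singleton (G i).2.1))).mono ?_
      rintro z ⟨⟨j, hz⟩, hz2⟩
      rcases trichotomous_of r j i with hji | hji | hji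
      · left
        refine Set.mem_iUnion.2 ⟨⟨j, hji⟩, ?_⟩
        rcases hz with hz | hz
        · exact Or.inl hz
        · exact Or.inr hz
      · right
        subst hji
        rcases hz with hz | hz
        · exact Or.inl hz
        · exact Or.inr hz
      · exfalso
        apply hz2
        have h7 := (hG j).2.1 i hji
        have h8 : z ∈ p.star := by
          rcases hz with hz | hz
          · rw [hz]; exact h7.1
          · rw [hz]; exact h7.2
        obtain ⟨J, hJ⟩ := h8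
        exact Set.mem_iUnion.2 ⟨J, hJ⟩

end Pool.Agent.MM
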